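import Pool.Agent.H174.GP.StB

/-! # Project GP: decomposition of `aa` (helper164) -/

open Finset PowerSeries

namespace Pool.Agent.H164.GP174

open Pool.Agent.H174.GP

namespace decomp

/-- nonnegative coefficients with total mass at most `A` -/
def MB (f : PowerSeries ℝ) (A : ℝ) : Prop :=
  (∀ k, 0 ≤ coeff k f) ∧ ∀ M : ℕ, ∑ k ∈ range M, coeff k f ≤ A

lemma MB.nonneg {f : PowerSeries ℝ} {A : ℝ} (h : MB f A) : 0 ≤ A := by
  have := h.2 0; simpa using this

lemma MB.mono {f : PowerSeries ℝ} {A B : ℝ} (h : MB f A) (hAB : A ≤ B) : MB f B :=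
  ⟨h.1, fun M => (h.2 M).trans hAB⟩

lemma sum_coeff_mul_le (f g : PowerSeries ℝ) (hf : ∀ k, 0 ≤ coeff k f) (hg : ∀ k, 0 ≤ coeff k g)
    (M : ℕ) : ∑ k ∈ range M, coeff k (f * g) ≤
      (∑ k ∈ range M, coeff k f) * ∑ k ∈ range M, coeff k g := by
  classical
  have h1 : ∑ k ∈ range M, coeff k (f * g) =
      ∑ p ∈ (range M ×ˢ range M).filter (fun p => p.1 + p.2 < M), coeff p.1 f * coeff p.2 g := by
    rw [← Finset.sum_fiberwise_of_maps_to (t := range M) (g := fun p : ℕ × ℕ => p.1 + p.2)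
      (fun p hp => by simp only [mem_filter] at hp; simpa using hp.2)]
    apply Finset.sum_congr rfl
    intro k hk
    rw [coeff_mul]
    apply Finset.sum_congr ?_ (fun _ _ => rfl)
    ext p
    simp only [HasAntidiagonal.mem_antidiagonal, mem_filter, mem_product, mem_range]
    rw [mem_range] at hk
    omega
  rw [h1, Finset.sum_mul_sum, ← Finset.sum_product']
  apply Finset.sum_le_sum_of_subset_of_nonneg (filter_subset _ _)
  intro p _ _
  exact mul_nonneg (hf _) (hg _)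

lemma coeff_mul_nonneg (f g : PowerSeries ℝ) (hf : ∀ k, 0 ≤ coeff k f) (hg : ∀ k, 0 ≤ coeff k g)
    (k : ℕ) : 0 ≤ coeff k (f * g) := by
  rw [coeff_mul]
  exact Finset.sum_nonneg fun p _ => mul_nonneg (hf _) (hg _)

lemma MB.mul {f g : PowerSeries ℝ} {A B : ℝ} (hf : MB f A) (hg : MB g B) : MB (f * g) (A * B) := by
  refine ⟨coeff_mul_nonneg f g hf.1 hg.1, fun M => ?_⟩
  refine (sum_coeff_mul_le f g hf.1 hg.1 M).trans ?_
  exact mul_le_mul (hf.2 M) (hg.2 M) (Finset.sum_nonneg fun _ _ => hg.1 _) hf.nonneg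

lemma MB.one : MB 1 1 := by
  refine ⟨fun k => ?_, fun M => ?_⟩
  · rw [coeff_one]; split_ifs <;> norm_num
  · simp only [coeff_one]
    rw [Finset.sum_ite_eq']
    split_ifs <;> norm_num

lemma MB.prod {ι : Type} (s : Finset ι) (f : ι → PowerSeries ℝ) (A : ι → ℝ)
    (h : ∀ i ∈ s, MB (f i) (A i)) : MB (∏ i ∈ s, f i) (∏ i ∈ s, A i) := by
  classical
  induction s using Finset.induction_on with
  | empty => simpa using MB.one
  | insert a s ha ih =>
    rw [Finset.prod_insert ha, Finset.prod_insert ha]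
    exact (h a (mem_insert_self a s)).mul (ih fun i hi => h i (mem_insert_of_mem hi))

lemma MB.mono_X (a : ℝ) (ha : 0 ≤ a) (i : ℕ) : MB (C a * X ^ i) a := by
  refine ⟨fun k => ?_, fun M => ?_⟩
  · rw [coeff_C_mul_X_pow]; split_ifs <;> simp [ha]
  · simp only [coeff_C_mul_X_pow]
    rw [Finset.sum_ite_eq']
    split_ifs
    · exact le_rfl
    · exact ha

/-- `r_j = exp (- 2 σ j)` -/
noncomputable def rr (σ : ℝ) (j : ℕ) : ℝ := Real.exp (-(2 * σ * j))

lemma rr_pos (σ : ℝ) (j : ℕ) : 0 < rr σ j := Real.exp_pos _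

lemma rr_le_one {σ : ℝ} (hσ : 0 < σ) (j : ℕ) : rr σ j ≤ 1 := by
  unfold rr; rw [Real.exp_le_one_iff]
  have : 0 ≤ 2 * σ * j := by positivity
  linarith

lemma rr_lt_one {σ : ℝ} (hσ : 0 < σ) {j : ℕ} (hj : 1 ≤ j) : rr σ j < 1 := by
  unfold rr; rw [Real.exp_lt_one_iff]
  have hj' : (1 : ℝ) ≤ j := by exact_mod_cast hj
  have : 0 < 2 * σ * j := by positivity
  linarith

lemma rr_add (σ : ℝ) (i j : ℕ) : rr σ (i + j) = rr σ i * rr σ j := by
  unfold rr; rw [← Real.exp_add]; congr 1; push_cast; ring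

lemma rr_mul (σ : ℝ) (i a : ℕ) : rr σ (i * a) = rr σ i ^ a := by
  unfold rr; rw [← Real.exp_nat_mul]; congr 1; push_cast; ring

lemma rr_zero (σ : ℝ) : rr σ 0 = 1 := by simp [rr]

lemma rr_anti {σ : ℝ} (hσ : 0 < σ) {i j : ℕ} (h : i ≤ j) : rr σ j ≤ rr σ i := by
  unfold rr
  apply Real.exp_le_exp.2
  have : (i : ℝ) ≤ j := by exact_mod_cast h
  nlinarith

/-- the generating function of `j * geometric` -/
noncomputable def gg (σ : ℝ) (j : ℕ) : PowerSeries ℝ :=
  PowerSeries.mk fun n => if j ∣ n then (1 - rr σ j) * rr σ n else 0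

lemma coeff_gg (σ : ℝ) (j n : ℕ) :
    coeff n (gg σ j) = if j ∣ n then (1 - rr σ j) * rr σ n else 0 := by
  rw [gg, coeff_mk]

lemma gg_nonneg {σ : ℝ} (hσ : 0 < σ) (j n : ℕ) : 0 ≤ coeff n (gg σ j) := by
  rw [coeff_gg]
  split_ifs
  · exact mul_nonneg (by linarith [rr_le_one hσ j]) (rr_pos _ _).le
  · exact le_rfl

lemma gg_MB {σ : ℝ} (hσ : 0 < σ) {j : ℕ} (hj : 1 ≤ j) : MB (gg σ j) 1 := by
  classical
  refine ⟨gg_nonneg hσ j, fun M => ?_⟩
  have hinj : Function.Injective fun a : ℕ => j * a := fun a b h =>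
    Nat.eq_of_mul_eq_mul_left hj h
  have h1 : ∑ k ∈ range M, coeff k (gg σ j) ≤ ∑ a ∈ range M, (1 - rr σ j) * rr σ j ^ a := by
    have h2 : ∑ k ∈ range M, coeff k (gg σ j) =
        ∑ k ∈ (range M).filter (fun k => j ∣ k), coeff k (gg σ j) := by
      rw [Finset.sum_filter]
      apply Finset.sum_congr rfl
      intro k _
      by_cases h : j ∣ k
      · rw [if_pos h]
      · rw [if_neg h, coeff_gg, if_neg h]
    have h3 : (range M).filter (fun k => j ∣ k) ⊆ (range M).image fun a => j * a := by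
      intro k hk
      rw [mem_filter, mem_range] at hk
      obtain ⟨a, rfl⟩ := hk.2
      rw [mem_image]
      refine ⟨a, ?_, rfl⟩
      rw [mem_range]
      exact lt_of_le_of_lt (Nat.le_mul_of_pos_left a hj) hk.1
    rw [h2]
    refine (Finset.sum_le_sum_of_subset_of_nonneg h3 fun k _ _ => gg_nonneg hσ j k).trans ?_
    rw [Finset.sum_image fun a _ b _ h => hinj h]
    apply le_of_eq
    apply Finset.sum_congr rfl
    intro a _
    rw [coeff_gg, if_pos (Dvd.intro a rfl), rr_mul]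
  refine h1.trans ?_
  rw [← Finset.mul_sum]
  have h4 : (1 - rr σ j) * ∑ a ∈ range M, rr σ j ^ a = 1 - rr σ j ^ M := by
    rw [mul_comm]; exact geom_sum_mul_neg (rr σ j) M
  rw [h4]
  have := pow_nonneg (rr_pos σ j).le M
  linarith

/-- the finitely supported function attached to `γ` -/
noncomputable def toF (d : ℕ) (γ : Fin d → ℕ) : ℕ →₀ ℕ :=
  Finsupp.onFinset (Icc 1 d) (fun j => if h : 1 ≤ j ∧ j ≤ d then j * γ ⟨j - 1, by omega⟩ else 0)
    (fun j hj => by
      rw [mem_Icc]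
      by_contra hc
      exact hj (dif_neg hc))

lemma toF_apply (d : ℕ) (γ : Fin d → ℕ) (i : Fin d) :
    toF d γ ((i : ℕ) + 1) = ((i : ℕ) + 1) * γ i := by
  have h : 1 ≤ (i : ℕ) + 1 ∧ (i : ℕ) + 1 ≤ d := by have := i.2; omega
  simp only [toF, Finsupp.onFinset_apply, dif_pos h]
  congr 1

lemma sum_Icc_fin {β : Type} [AddCommMonoid β] (d : ℕ) (F : ℕ → β) :
    ∑ j ∈ Icc 1 d, F j = ∑ i : Fin d, F ((i : ℕ) + 1) := by
  rw [Fin.sum_univ_eq_sum_range (fun i => F (i + 1)) d]
  rw [Finset.range_eq_Ico, Finset.sum_Ico_add' (fun i => F i) 0 d 1]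
  rfl

lemma Nd_eq (d m : ℕ) : Nd d m =
    ((finsuppAntidiag (Icc 1 d) m).filter fun l : ℕ →₀ ℕ => ∀ i ∈ Icc 1 d, i ∣ l i).card := by
  classical
  unfold Nd
  rw [← Set.ncard_coe_finset]
  apply Set.ncard_congr (fun γ _ => toF d γ)
  · intro γ hγ
    simp only [Set.mem_ofPred_eq] at hγ
    rw [mem_coe, mem_filter, mem_finsuppAntidiag]
    refine ⟨⟨?_, ?_⟩, ?_⟩
    · rw [sum_Icc_fin, ← hγ]
      exact Finset.sum_congr rfl fun i _ => toF_apply d γ i
    · exact Finsupp.support_onFinset_subset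
    · intro j hj
      rw [mem_Icc] at hj
      have := toF_apply d γ ⟨j - 1, by omega⟩
      have h1 : j - 1 + 1 = j := by omega
      simp only [h1] at this
      rw [this]
      exact Dvd.intro _ rfl
  · intro γ γ' _ _ h
    funext i
    have h1 := toF_apply d γ i
    have h2 := toF_apply d γ' i
    rw [h] at h1
    rw [h1] at h2
    exact Nat.eq_of_mul_eq_mul_left (Nat.succ_pos _) h2
  · intro l hl
    rw [mem_coe, mem_filter, mem_finsuppAntidiag] at hl
    obtain ⟨⟨hl1, hl2⟩, hl3⟩ := hl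
    have hval : ∀ i : Fin d, ((i : ℕ) + 1) * (l ((i : ℕ) + 1) / ((i : ℕ) + 1)) = l ((i : ℕ) + 1) := by
      intro i
      apply Nat.mul_div_cancel'
      apply hl3
      rw [mem_Icc]; have := i.2; omega
    refine ⟨fun i => l ((i : ℕ) + 1) / ((i : ℕ) + 1), ?_, ?_⟩
    · simp only [Set.mem_ofPred_eq]
      rw [← hl1, sum_Icc_fin]
      exact Finset.sum_congr rfl fun i _ => hval i
    · ext j
      by_cases hj : j ∈ Icc 1 d
      · have hj' := mem_Icc.1 hj
        have h0 := toF_apply d (fun i => l ((i : ℕ) + 1) / ((i : ℕ) + 1)) ⟨j - 1, by omega⟩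
        have h1 : j - 1 + 1 = j := by omega
        simp only [h1] at h0
        rw [h0]
        exact Nat.mul_div_cancel' (hl3 j hj)
      · have h1 : l j = 0 := by
          by_contra hne
          exact hj (hl2 (Finsupp.mem_support_iff.2 hne))
        rw [h1]
        simp only [toF, Finsupp.onFinset_apply]
        rw [dif_neg]
        intro h
        exact hj (mem_Icc.2 h)

lemma coeff_total {σ : ℝ} (d m : ℕ) : coeff m (∏ j ∈ Icc 1 d, gg σ j) = aa d σ m := by
  classical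
  rw [coeff_prod]
  simp only [coeff_gg]
  have h1 : ∀ l ∈ finsuppAntidiag (Icc 1 d) m,
      (∏ i ∈ Icc 1 d, if i ∣ l i then (1 - rr σ i) * rr σ (l i) else 0) =
      if ∀ i ∈ Icc 1 d, i ∣ l i then rr σ m * ∏ j ∈ Icc 1 d, (1 - rr σ j) else 0 := by
    intro l hl
    rw [Finset.prod_ite_zero]
    congr 1
    rw [Finset.prod_mul_distrib, mul_comm]
    congr 1
    rw [mem_finsuppAntidiag] at hl
    rw [← hl.1]
    unfold rr
    rw [← Real.exp_sum]
    congr 1
    push_cast
    rw [Finset.mul_sum, Finset.sum_neg_distrib]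
  rw [Finset.sum_congr rfl h1, ← Finset.sum_filter, Finset.sum_const, ← Nd_eq, nsmul_eq_mul]
  unfold aa
  rw [if_pos (Int.natCast_nonneg m), Int.toNat_natCast]
  unfold rr
  push_cast
  ring

/-- `π_i` -/
noncomputable def pp (σ : ℝ) (D i : ℕ) : ℝ :=
  (1 - rr σ i) * (1 - rr σ (i + D)) * (rr σ i + rr σ (i + D))

/-- `(1-p) + p z^D` -/
noncomputable def TT (σ : ℝ) (D : ℕ) : PowerSeries ℝ := C (1 - pD D σ) + C (pD D σ) * X ^ D

/-- the remainder `Y_i` -/
noncomputable def YY (σ : ℝ) (D i : ℕ) : PowerSeries ℝ :=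
  gg σ i * gg σ (i + D) - C (pp σ D i) * X ^ i * TT σ D

lemma XX_eq (σ : ℝ) (D i : ℕ) : C (pp σ D i) * X ^ i * TT σ D =
    C ((1 - rr σ i) * (1 - rr σ (i + D)) * rr σ i) * X ^ i +
    C ((1 - rr σ i) * (1 - rr σ (i + D)) * rr σ (i + D)) * X ^ (i + D) := by
  have hD : pD D σ = rr σ D / (1 + rr σ D) := rfl
  have h0 : 0 < 1 + rr σ D := by have := rr_pos σ D; linarith
  have h1 : (1 - rr σ i) * (1 - rr σ (i + D)) * rr σ i = pp σ D i * (1 - pD D σ) := by
    rw [hD, pp, rr_add]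
    field_simp
    ring
  have h2 : (1 - rr σ i) * (1 - rr σ (i + D)) * rr σ (i + D) = pp σ D i * pD D σ := by
    rw [hD, pp, rr_add]
    field_simp
  rw [h1, h2, TT, map_mul, map_mul, pow_add]
  ring

lemma pp_nonneg {σ : ℝ} (hσ : 0 < σ) (D i : ℕ) : 0 ≤ pp σ D i := by
  unfold pp
  have h1 := rr_le_one hσ i
  have h2 := rr_le_one hσ (i + D)
  have h3 := rr_pos σ i
  have h4 := rr_pos σ (i + D)
  apply mul_nonneg (mul_nonneg _ _) <;> linarith

lemma YY_MB {σ : ℝ} (hσ : 0 < σ) {D i : ℕ} (hD : 1 ≤ D) (hi : 1 ≤ i) :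
    MB (YY σ D i) (1 - pp σ D i) := by
  classical
  have ha : 0 ≤ 1 - rr σ i := by linarith [rr_le_one hσ i]
  have hb : 0 ≤ 1 - rr σ (i + D) := by linarith [rr_le_one hσ (i + D)]
  have hX : ∀ k, coeff k (C (pp σ D i) * X ^ i * TT σ D) =
      (if k = i then (1 - rr σ i) * (1 - rr σ (i + D)) * rr σ i else 0) +
      (if k = i + D then (1 - rr σ i) * (1 - rr σ (i + D)) * rr σ (i + D) else 0) := by
    intro k
    rw [XX_eq, map_add, coeff_C_mul_X_pow, coeff_C_mul_X_pow]
  have hterm : ∀ k : ℕ, ∀ q ∈ antidiagonal k,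
      coeff q.1 (gg σ i) * coeff q.2 (gg σ (i + D)) ≤ coeff k (gg σ i * gg σ (i + D)) := by
    intro k q hq
    rw [coeff_mul]
    exact Finset.single_le_sum (f := fun q : ℕ × ℕ => coeff q.1 (gg σ i) * coeff q.2 (gg σ (i + D)))
      (fun q _ => mul_nonneg (gg_nonneg hσ _ _) (gg_nonneg hσ _ _)) hq
  have hnn : ∀ k, 0 ≤ coeff k (YY σ D i) := by
    intro k
    rw [YY, map_sub, hX, sub_nonneg]
    by_cases h1 : k = i
    · have h2 : k ≠ i + D := by omega
      rw [if_pos h1, if_neg h2, add_zero]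
      have h3 := hterm k (i, 0) (by rw [HasAntidiagonal.mem_antidiagonal]; simp [h1])
      refine le_trans (le_of_eq ?_) h3
      rw [coeff_gg, coeff_gg, if_pos (dvd_refl _), if_pos (dvd_zero _), rr_zero]
      ring
    · rw [if_neg h1, zero_add]
      by_cases h2 : k = i + D
      · rw [if_pos h2]
        have h3 := hterm k (0, i + D) (by rw [HasAntidiagonal.mem_antidiagonal]; simp [h2])
        refine le_trans (le_of_eq ?_) h3
        rw [coeff_gg, coeff_gg, if_pos (dvd_refl _), if_pos (dvd_zero _), rr_zero]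
        ring
      · rw [if_neg h2]
        exact coeff_mul_nonneg _ _ (gg_nonneg hσ _) (gg_nonneg hσ _) k
  refine ⟨hnn, fun M => ?_⟩
  have hM : ∑ k ∈ range M, coeff k (YY σ D i) ≤
      ∑ k ∈ range (M + (i + D + 1)), coeff k (YY σ D i) :=
    Finset.sum_le_sum_of_subset_of_nonneg (Finset.range_mono (Nat.le_add_right _ _))
      fun k _ _ => hnn k
  refine hM.trans ?_
  have h1 : ∑ k ∈ range (M + (i + D + 1)), coeff k (YY σ D i) =
      (∑ k ∈ range (M + (i + D + 1)), coeff k (gg σ i * gg σ (i + D))) - pp σ D i := by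
    simp only [YY, map_sub]
    rw [Finset.sum_sub_distrib]
    congr 1
    rw [Finset.sum_congr rfl fun k _ => hX k, Finset.sum_add_distrib, Finset.sum_ite_eq',
      Finset.sum_ite_eq', if_pos (by rw [mem_range]; omega), if_pos (by rw [mem_range]; omega), pp]
    ring
  rw [h1]
  have h2 := ((gg_MB hσ hi).mul (gg_MB hσ (show 1 ≤ i + D by omega))).2 (M + (i + D + 1))
  linarith

/-- coefficients of `T^n g_1` -/
lemma coeff_beta (σ : ℝ) (D n t : ℕ) : coeff t (TT σ D ^ n * gg σ 1) = beta D σ n t := by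
  have h1 : TT σ D ^ n = ∑ b ∈ range (n + 1), C (bn n (pD D σ) b) * X ^ (D * b) := by
    rw [TT, add_comm, add_pow]
    apply Finset.sum_congr rfl
    intro b _
    rw [mul_pow, ← map_pow, ← map_pow, ← pow_mul, bn]
    have : ((n.choose b : ℕ) : PowerSeries ℝ) = C ((n.choose b : ℕ) : ℝ) := by simp
    rw [this, map_mul, map_mul]
    ring
  rw [h1, Finset.sum_mul, map_sum, beta]
  apply Finset.sum_congr rfl
  intro b _
  rw [mul_assoc, coeff_C_mul, coeff_X_pow_mul']
  by_cases h : D * b ≤ t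
  · rw [if_pos h, if_pos h, coeff_gg, if_pos (one_dvd _)]
    unfold rr
    rw [Nat.cast_sub h]
    push_cast
    rw [mul_one]
  · rw [if_neg h, if_neg h, mul_zero]

/-- the set of the left partners -/
def PS (D : ℕ) : Finset ℕ := Ioc D (2 * D)

/-- the other factors -/
noncomputable def RR (σ : ℝ) (d D : ℕ) : PowerSeries ℝ :=
  (∏ j ∈ Ioc 1 D, gg σ j) * ∏ j ∈ Ioc (3 * D) d, gg σ j

/-- `Q_I` -/
noncomputable def QQ (σ : ℝ) (d D : ℕ) (I : Finset ℕ) : PowerSeries ℝ :=
  (∏ i ∈ I, (C (pp σ D i) * X ^ i)) * (∏ i ∈ PS D \ I, YY σ D i) * RR σ d D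

lemma total_eq (σ : ℝ) (d D : ℕ) (hD : 1 ≤ D) (hd : 3 * D ≤ d) :
    ∏ j ∈ Icc 1 d, gg σ j = ∑ I ∈ (PS D).powerset, QQ σ d D I * (TT σ D ^ I.card * gg σ 1) := by
  have h1 : ∏ j ∈ Icc 1 d, gg σ j =
      gg σ 1 * RR σ d D * ∏ i ∈ PS D, (gg σ i * gg σ (i + D)) := by
    have e1 : Icc 1 d = Ioc 0 d := rfl
    rw [e1, ← Finset.prod_Ioc_consecutive _ (Nat.zero_le 1) (by omega : 1 ≤ d),
      ← Finset.prod_Ioc_consecutive _ hD (by omega : D ≤ d),
      ← Finset.prod_Ioc_consecutive _ (by omega : D ≤ 2 * D) (by omega : 2 * D ≤ d),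
      ← Finset.prod_Ioc_consecutive _ (by omega : 2 * D ≤ 3 * D) hd]
    have e2 : ∏ j ∈ Ioc 0 1, gg σ j = gg σ 1 := by simp
    have e3 : ∏ j ∈ Ioc (2 * D) (3 * D), gg σ j = ∏ i ∈ Ioc D (2 * D), gg σ (i + D) := by
      symm
      apply Finset.prod_nbij' (fun i => i + D) (fun j => j - D)
      · intro i hi; rw [mem_Ioc] at hi ⊢; omega
      · intro i hi; rw [mem_Ioc] at hi ⊢; omega
      · intro i _; exact Nat.add_sub_cancel i D
      · intro j hj
        exact Nat.sub_add_cancel (by rw [mem_Ioc] at hj; omega)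
      · intro i _; rfl
    rw [e2, e3, RR, PS, Finset.prod_mul_distrib]
    ring
  have h2 : ∏ i ∈ PS D, (gg σ i * gg σ (i + D)) =
      ∏ i ∈ PS D, (C (pp σ D i) * X ^ i * TT σ D + YY σ D i) := by
    apply Finset.prod_congr rfl
    intro i _
    rw [YY]; ring
  rw [h1, h2, Finset.prod_add, Finset.mul_sum]
  apply Finset.sum_congr rfl
  intro I _
  rw [Finset.prod_mul_distrib (s := I), Finset.prod_const, QQ]
  ring

lemma card_PS (D : ℕ) : (PS D).card = D := by
  rw [PS, Nat.card_Ioc]; omega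

/-- the weight of `I` -/
noncomputable def WW (σ : ℝ) (D : ℕ) (I : Finset ℕ) : ℝ :=
  (∏ i ∈ I, pp σ D i) * ∏ i ∈ PS D \ I, (1 - pp σ D i)

lemma QQ_MB {σ : ℝ} (hσ : 0 < σ) (d : ℕ) {D : ℕ} (hD : 1 ≤ D) (I : Finset ℕ) :
    MB (QQ σ d D I) (WW σ D I) := by
  have h1 : MB (RR σ d D) 1 := by
    have e1 : MB (∏ j ∈ Ioc 1 D, gg σ j) (∏ _j ∈ Ioc 1 D, (1 : ℝ)) :=
      MB.prod _ _ _ fun i hi => gg_MB hσ (by rw [mem_Ioc] at hi; omega)
    have e2 : MB (∏ j ∈ Ioc (3 * D) d, gg σ j) (∏ _j ∈ Ioc (3 * D) d, (1 : ℝ)) :=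
      MB.prod _ _ _ fun i hi => gg_MB hσ (by rw [mem_Ioc] at hi; omega)
    have := e1.mul e2
    simpa [RR] using this
  have h2 : MB (∏ i ∈ I, (C (pp σ D i) * X ^ i)) (∏ i ∈ I, pp σ D i) :=
    MB.prod _ _ _ fun i _ => MB.mono_X _ (pp_nonneg hσ D i) i
  have h3 : MB (∏ i ∈ PS D \ I, YY σ D i) (∏ i ∈ PS D \ I, (1 - pp σ D i)) :=
    MB.prod _ _ _ fun i hi => YY_MB hσ hD (by
      have := (mem_sdiff.1 hi).1
      rw [PS, mem_Ioc] at this; omega)
  have := (h2.mul h3).mul h1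
  simpa [QQ, WW] using this

end decomp

open decomp

theorem gp_decomp : S_decomp := by
  classical
  intro s1 s2 hs1 hs2
  set p0 : ℝ := (1 - Real.exp (-(s1 / 2))) ^ 2 * Real.exp (-(2 * s2)) with hp0
  have he1 : Real.exp (-(s1 / 2)) < 1 := by rw [Real.exp_lt_one_iff]; linarith
  have he1' := Real.exp_pos (-(s1 / 2))
  have he2 : Real.exp (-(2 * s2)) < 1 := by rw [Real.exp_lt_one_iff]; linarith
  have he2' := Real.exp_pos (-(2 * s2))
  have hp0pos : 0 < p0 := by
    have : 0 < 1 - Real.exp (-(s1 / 2)) := by linarith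
    positivity
  have hp0le : p0 ≤ 1 := by
    have h1 : (1 - Real.exp (-(s1 / 2))) ^ 2 ≤ 1 := by
      apply pow_le_one₀ <;> linarith
    calc p0 ≤ 1 * 1 := mul_le_mul h1 he2.le he2'.le zero_le_one
      _ = 1 := one_mul 1
  refine ⟨p0 / 4, by positivity, by linarith, p0 / 4, by positivity, 12, le_rfl, ?_⟩
  intro d hd σ hσ hs1d hs2d
  set D := d / 3 with hDdef
  have hD4 : 4 ≤ D := by omega
  have hD1 : 1 ≤ D := by omega
  have h3D : 3 * D ≤ d := by omega
  have hDd : d ≤ 4 * D := by omega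
  have hDr : s1 / 4 ≤ σ * D := by
    have h1 : (d : ℝ) ≤ 4 * D := by exact_mod_cast hDd
    have h2 : σ * d ≤ σ * (4 * D) := mul_le_mul_of_nonneg_left h1 hσ.le
    linarith
  have hpi : ∀ i ∈ PS D, p0 ≤ pp σ D i := by
    intro i hi
    rw [PS, mem_Ioc] at hi
    have hA : rr σ i ≤ Real.exp (-(s1 / 2)) := by
      refine (rr_anti hσ hi.1.le).trans ?_
      unfold rr
      apply Real.exp_le_exp.2
      nlinarith
    have hB : rr σ (i + D) ≤ Real.exp (-(s1 / 2)) := (rr_anti hσ (Nat.le_add_right _ _)).trans hA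
    have hC : Real.exp (-(2 * s2)) ≤ rr σ i := by
      have : rr σ d ≤ rr σ i := rr_anti hσ (by omega)
      refine le_trans ?_ this
      unfold rr
      apply Real.exp_le_exp.2
      nlinarith
    have hE := rr_pos σ (i + D)
    rw [hp0, pp]
    apply mul_le_mul
    · rw [sq]
      apply mul_le_mul <;> linarith
    · linarith
    · exact he2'.le
    · apply mul_nonneg <;> linarith
  have hW : ∀ I ∈ (PS D).powerset, 0 ≤ WW σ D I := fun I _ => (QQ_MB hσ d hD1 I).nonneg
  have hsum1 : ∑ I ∈ (PS D).powerset, WW σ D I = 1 := by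
    have := Finset.prod_add (fun i => pp σ D i) (fun i => 1 - pp σ D i) (PS D)
    unfold WW
    rw [← this]
    simp
  refine ⟨fun n k => ∑ I ∈ (PS D).powersetCard n, coeff k (QQ σ d D I), ?_, ?_, ?_, ?_⟩
  · intro n k
    exact Finset.sum_nonneg fun I _ => (QQ_MB hσ d hD1 I).1 k
  · intro m
    rw [← coeff_total, total_eq σ d D hD1 h3D, map_sum, Finset.sum_powerset, card_PS]
    apply Finset.sum_congr rfl
    intro n _
    rw [Finset.sum_congr rfl (g := fun I => ∑ k ∈ range (m + 1),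
      coeff k (QQ σ d D I) * beta D σ n (m - k))]
    · rw [Finset.sum_comm]
      apply Finset.sum_congr rfl
      intro k _
      rw [Finset.sum_mul]
    · intro I hI
      rw [(mem_powersetCard.1 hI).2, coeff_mul,
        Finset.Nat.sum_antidiagonal_eq_sum_range_succ_mk]
      apply Finset.sum_congr rfl
      intro k _
      simp only
      rw [coeff_beta]
  · intro M
    have h1 : ∑ n ∈ range (D + 1), ∑ k ∈ range M,
        ∑ I ∈ (PS D).powersetCard n, coeff k (QQ σ d D I) =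
        ∑ I ∈ (PS D).powerset, ∑ k ∈ range M, coeff k (QQ σ d D I) := by
      rw [Finset.sum_powerset, card_PS]
      exact Finset.sum_congr rfl fun n _ => Finset.sum_comm
    rw [h1, ← hsum1]
    exact Finset.sum_le_sum fun I _ => (QQ_MB hσ d hD1 I).2 M
  · intro M
    set c : ℝ := p0 / 4 with hc
    set K : ℝ := Real.exp (c * D * Real.log 2) with hK
    have hKpos : 0 < K := Real.exp_pos _
    have hstep : ∀ n ∈ (range (D + 1)).filter (fun n : ℕ => (n : ℝ) < c * (D : ℝ)),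
        ∑ k ∈ range M, ∑ I ∈ (PS D).powersetCard n, coeff k (QQ σ d D I) ≤
        K * ∑ I ∈ (PS D).powersetCard n, (1 / 2 : ℝ) ^ I.card * WW σ D I := by
      intro n hn
      rw [mem_filter] at hn
      rw [Finset.sum_comm, Finset.mul_sum]
      apply Finset.sum_le_sum
      intro I hI
      have hcard := (mem_powersetCard.1 hI).2
      have hIp : I ∈ (PS D).powerset := mem_powerset.2 (mem_powersetCard.1 hI).1
      refine ((QQ_MB hσ d hD1 I).2 M).trans ?_
      rw [hcard, ← mul_assoc]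
      apply le_mul_of_one_le_left (hW I hIp)
      have h1 : (1 / 2 : ℝ) ^ n = Real.exp (-(n * Real.log 2)) := by
        rw [one_div, inv_pow, Real.exp_neg]
        congr 1
        rw [mul_comm, Real.exp_mul, Real.exp_log (by norm_num), Real.rpow_natCast]
      rw [h1, hK, ← Real.exp_add]
      apply Real.one_le_exp
      have h2 := Real.log_nonneg (show (1 : ℝ) ≤ 2 by norm_num)
      nlinarith [hn.2]
    refine (Finset.sum_le_sum hstep).trans ?_
    rw [← Finset.mul_sum]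
    have h2 : ∑ n ∈ (range (D + 1)).filter (fun n : ℕ => (n : ℝ) < c * (D : ℝ)),
        ∑ I ∈ (PS D).powersetCard n, (1 / 2 : ℝ) ^ I.card * WW σ D I ≤
        ∑ I ∈ (PS D).powerset, (1 / 2 : ℝ) ^ I.card * WW σ D I := by
      rw [Finset.sum_powerset, card_PS]
      apply Finset.sum_le_sum_of_subset_of_nonneg (filter_subset _ _)
      intro n _ _
      apply Finset.sum_nonneg
      intro I hI
      exact mul_nonneg (by positivity) (hW I (mem_powerset.2 (mem_powersetCard.1 hI).1))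
    have h3 : ∑ I ∈ (PS D).powerset, (1 / 2 : ℝ) ^ I.card * WW σ D I =
        ∏ i ∈ PS D, (1 / 2 * pp σ D i + (1 - pp σ D i)) := by
      rw [Finset.prod_add]
      apply Finset.sum_congr rfl
      intro I _
      rw [Finset.prod_mul_distrib, Finset.prod_const, WW]
      ring
    have h4 : ∏ i ∈ PS D, (1 / 2 * pp σ D i + (1 - pp σ D i)) ≤ Real.exp (-(p0 / 2 * D)) := by
      have h5 : ∀ i ∈ PS D, 1 / 2 * pp σ D i + (1 - pp σ D i) ≤ Real.exp (-(p0 / 2)) := by
        intro i hi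
        have h6 := hpi i hi
        have h7 := Real.add_one_le_exp (-(p0 / 2))
        linarith
      have h8 : ∀ i ∈ PS D, 0 ≤ 1 / 2 * pp σ D i + (1 - pp σ D i) := by
        intro i hi
        have h9 := (YY_MB hσ hD1 (i := i) (by rw [PS, mem_Ioc] at hi; omega)).nonneg
        have h10 := pp_nonneg hσ D i
        linarith
      refine (Finset.prod_le_prod h8 h5).trans ?_
      rw [Finset.prod_const, card_PS, ← Real.exp_nat_mul]
      apply le_of_eq
      congr 1
      ring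
    calc K * ∑ n ∈ (range (D + 1)).filter (fun n : ℕ => (n : ℝ) < c * (D : ℝ)),
          ∑ I ∈ (PS D).powersetCard n, (1 / 2 : ℝ) ^ I.card * WW σ D I
        ≤ K * Real.exp (-(p0 / 2 * D)) := by
          apply mul_le_mul_of_nonneg_left _ hKpos.le
          exact h2.trans (h3.le.trans h4)
      _ = Real.exp (c * D * Real.log 2 + -(p0 / 2 * D)) := by rw [hK, ← Real.exp_add]
      _ ≤ Real.exp (-(p0 / 4 * D)) := by
          apply Real.exp_le_exp.2
          have hl : Real.log 2 ≤ 1 := by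
            have := Real.log_two_lt_d9; linarith
          have hDn : (0 : ℝ) ≤ D := Nat.cast_nonneg D
          have h11 : c * D * Real.log 2 ≤ c * D * 1 :=
            mul_le_mul_of_nonneg_left hl (by positivity)
          rw [hc] at h11 ⊢
          nlinarith

end Pool.Agent.H164.GP174
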